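import Mathlib

set_option autoImplicit false

namespace Pool.Agent.He29efe

open Polynomial IntermediateField

/-- the homomorphism moving one root of an irreducible polynomial to another -/
theorem exists_hom (f : ℚ[X]) (hf : Irreducible f) (x y : ℂ) (hx : aeval x f = 0)
    (hy : aeval y f = 0) : ∃ τ : ℚ⟮x⟯ →ₐ[ℚ] ℂ, τ (AdjoinSimple.gen ℚ x) = y := by
  have hint : IsIntegral ℚ x := isAlgebraic_iff_isIntegral.mp ⟨f, hf.ne_zero, hx⟩
  have hmin : aeval y (minpoly ℚ x) = 0 := by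
    rw [← minpoly.eq_of_irreducible hf hx]
    simp [hy]
  have hmem : y ∈ (minpoly ℚ x).aroots ℂ := by
    rw [mem_aroots]
    exact ⟨minpoly.ne_zero hint, hmin⟩
  exact ⟨(algHomAdjoinIntegralEquiv ℚ hint).symm ⟨y, hmem⟩,
    algHomAdjoinIntegralEquiv_symm_apply_gen ℚ hint ⟨y, hmem⟩⟩

/-- the product of all roots is rational -/
theorem prod_rat (f : ℚ[X]) (hf : Irreducible f) (d : ℕ) (hd : f.natDegree = d)
    (α : Fin d → ℂ) (hinj : Function.Injective α) (hroot : ∀ i, aeval (α i) f = 0) :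
    ∃ q : ℚ, (q : ℂ) = ∏ i, α i := by
  classical
  set g : ℂ[X] := f.map (algebraMap ℚ ℂ) with hg
  have hg0 : g ≠ 0 := (Polynomial.map_ne_zero_iff (algebraMap ℚ ℂ).injective).mpr hf.ne_zero
  have hgd : g.natDegree = d := by rw [hg, Polynomial.natDegree_map, hd]
  have hnd : (Finset.univ.val.map α).Nodup := Multiset.Nodup.map hinj Finset.univ.nodup
  have hle : Finset.univ.val.map α ≤ g.roots := by
    rw [Multiset.le_iff_subset hnd]
    intro z hz
    rw [Multiset.mem_map] at hz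
    obtain ⟨i, _, rfl⟩ := hz
    rw [mem_roots hg0, IsRoot.def, hg, eval_map_algebraMap]
    exact hroot i
  have heq : Finset.univ.val.map α = g.roots := by
    apply Multiset.eq_of_le_of_card_le hle
    refine (Polynomial.card_roots' g).trans ?_
    rw [hgd]
    simp
  have hs : Splits g := IsAlgClosed.splits g
  have h0 := hs.coeff_zero_eq_leadingCoeff_mul_prod_roots
  rw [← heq, hgd] at h0
  have h1 : (Finset.univ.val.map α).prod = ∏ i, α i := rfl
  rw [h1, hg, Polynomial.coeff_map, Polynomial.leadingCoeff_map] at h0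
  have hl : f.leadingCoeff ≠ 0 := leadingCoeff_ne_zero.mpr hf.ne_zero
  refine ⟨(-1) ^ d * f.coeff 0 / f.leadingCoeff, ?_⟩
  have hl' : (f.leadingCoeff : ℂ) ≠ 0 := by exact_mod_cast hl
  have h2 : (f.coeff 0 : ℂ) = (-1) ^ d * (f.leadingCoeff : ℂ) * ∏ i, α i := h0
  push_cast
  rw [h2]
  have h3 : ((-1 : ℂ) ^ d) * (-1) ^ d = 1 := by
    rw [← mul_pow]; norm_num
  field_simp
  linear_combination (∏ i, α i) * h3

/-- the key iteration: if `x ↦ c / x ^ 2` maps some root to a root, a power of a root is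
rational. -/
theorem power_rat (f : ℚ[X]) (hf : Irreducible f) (x y : ℂ) (hx0 : x ≠ 0) (hx : aeval x f = 0)
    (hy : aeval y f = 0) (c : ℚ) (hc : c ≠ 0) (hxy : y = c * (x ^ 2)⁻¹) :
    ∃ k : ℤ, k ≠ 0 ∧ ∃ t : ℚ, x ^ k = (t : ℂ) := by
  classical
  have hstep : ∀ z : ℂ, aeval z f = 0 → aeval ((c : ℂ) * (z ^ 2)⁻¹) f = 0 := by
    intro z hz
    obtain ⟨τ, hτ⟩ := exists_hom f hf x z hx hz
    set g := AdjoinSimple.gen ℚ x with hg
    have hgx : (algebraMap ℚ⟮x⟯ ℂ) g = x := AdjoinSimple.algebraMap_gen ℚ x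
    have h1 : aeval (algebraMap ℚ ℚ⟮x⟯ c * (g ^ 2)⁻¹) f = 0 := by
      apply (algebraMap ℚ⟮x⟯ ℂ).injective
      rw [map_zero, ← aeval_algebraMap_apply, map_mul, map_inv₀, map_pow, hgx,
        ← IsScalarTower.algebraMap_apply]
      have : (algebraMap ℚ ℂ) c = (c : ℂ) := rfl
      rw [this, ← hxy]
      exact hy
    have h2 := congrArg τ h1
    rw [map_zero, ← aeval_algHom_apply, map_mul, map_inv₀, map_pow, hτ, AlgHom.commutes] at h2
    exact h2
  let φ : ℂ → ℂ := fun z => (c : ℂ) * (z ^ 2)⁻¹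
  have hroot : ∀ n, aeval (φ^[n] x) f = 0 := by
    intro n
    induction n with
    | zero => exact hx
    | succ n ih =>
      rw [Function.iterate_succ_apply']
      exact hstep _ ih
  have hform : ∀ n, ∃ r : ℚ, r ≠ 0 ∧ φ^[n] x = (r : ℂ) * x ^ ((-2 : ℤ) ^ n) := by
    intro n
    induction n with
    | zero => exact ⟨1, one_ne_zero, by simp⟩
    | succ n ih =>
      obtain ⟨r, hr, hn⟩ := ih
      refine ⟨c * (r ^ 2)⁻¹, mul_ne_zero hc (inv_ne_zero (pow_ne_zero 2 hr)), ?_⟩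
      rw [Function.iterate_succ_apply', hn]
      show (c : ℂ) * (((r : ℂ) * x ^ ((-2 : ℤ) ^ n)) ^ 2)⁻¹ = _
      push_cast
      rw [mul_pow, mul_inv, ← zpow_natCast (x ^ ((-2 : ℤ) ^ n)) 2, ← zpow_mul, ← zpow_neg,
        mul_assoc]
      congr 2
      congr 1
      rw [pow_succ]; push_cast; ring
  have hfin : (f.rootSet ℂ).Finite := Polynomial.rootSet_finite f ℂ
  have hmaps : ∀ n : ℕ, φ^[n] x ∈ f.rootSet ℂ := by
    intro n
    rw [mem_rootSet]
    exact ⟨hf.ne_zero, hroot n⟩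
  obtain ⟨m, n, hmn, heq⟩ : ∃ m n : ℕ, m ≠ n ∧ φ^[m] x = φ^[n] x := by
    by_contra hcon
    push Not at hcon
    have hinj : Function.Injective (fun n : ℕ => φ^[n] x) := by
      intro a b hab
      by_contra hne
      exact hcon a b hne hab
    exact Set.infinite_of_injective_forall_mem hinj hmaps hfin
  obtain ⟨r, hr, h1⟩ := hform m
  obtain ⟨s, hs, h2⟩ := hform n
  refine ⟨(-2 : ℤ) ^ m - (-2 : ℤ) ^ n, ?_, s / r, ?_⟩
  · intro h
    have h3 : ((-2 : ℤ) ^ m).natAbs = ((-2 : ℤ) ^ n).natAbs := by rw [sub_eq_zero.mp h]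
    rw [Int.natAbs_pow, Int.natAbs_pow] at h3
    exact hmn (Nat.pow_right_injective (le_refl 2) h3)
  · have hr' : (r : ℂ) ≠ 0 := by exact_mod_cast hr
    have h4 : (r : ℂ) * x ^ ((-2 : ℤ) ^ m) = s * x ^ ((-2 : ℤ) ^ n) := by rw [← h1, ← h2, heq]
    rw [zpow_sub₀ hx0]
    push_cast
    have h5 : x ^ ((-2 : ℤ) ^ n) ≠ 0 := zpow_ne_zero _ hx0
    rw [div_eq_div_iff h5 hr']
    linear_combination h4

/-- all conjugates have the same rational power -/
theorem power_transfer (f : ℚ[X]) (hf : Irreducible f) (x y : ℂ) (hx : aeval x f = 0)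
    (hy : aeval y f = 0) (k : ℤ) (t : ℚ) (ht : x ^ k = (t : ℂ)) : y ^ k = (t : ℂ) := by
  obtain ⟨τ, hτ⟩ := exists_hom f hf x y hx hy
  set g := AdjoinSimple.gen ℚ x with hg
  have hgx : (algebraMap ℚ⟮x⟯ ℂ) g = x := AdjoinSimple.algebraMap_gen ℚ x
  have h1 : g ^ k = algebraMap ℚ ℚ⟮x⟯ t := by
    apply (algebraMap ℚ⟮x⟯ ℂ).injective
    rw [map_zpow₀, hgx, ← IsScalarTower.algebraMap_apply]
    exact ht
  have h2 := congrArg τ h1
  rw [map_zpow₀, hτ, AlgHom.commutes] at h2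
  exact h2

end Pool.Agent.He29efe
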